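import Pool.Agent.KS6_56.WR.Fin

/-!
# MP_02c618_ag: the Waring rank of generic hyperplane arrangements

`P(n)` fails for every `n ≥ 2`. More precisely every representation of a generic arrangement of `d`
hyperplanes of `ℙⁿ` as a sum of `r` powers of linear forms satisfies `2 r ≥ d + 2` for `n = 2`,
`r ≥ d + 1` for `n = 3`, `r ≥ 2 d` for `n = 4` and `r ≥ 2 d + 2` for `n ≥ 5`.

Idea. Let `F = ℓ_1 ⋯ ℓ_d = ∑ m_j ^ d` be a shortest representation. (1) If a proper subspace `Y` of
the space of linear forms misses some `ℓ_i`, then at most half of the `m_j` lie in `Y`: project along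
a direction killed by `Y` to the hyperplane `ℓ_i = 0`, where `F` vanishes. (2) Restrict to `ℓ_1 = 0`
and collect the restrictions of the `m_j` into classes of proportional forms. If the sum over some
class does not vanish, then `r ≥ 2 d + 2`, or `d + 2` of the `m_j` span together with `ℓ_1` a space
of dimension three (otherwise the classes can be separated by products of `d` linear functionals,
each killing two classes), so `r ≥ 2 d + 4` by (1). (3) If the sums over all classes vanish, then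
every class has at least two elements, and the derivative of `F` transversal to `ℓ_1 = 0` writes the
generic arrangement `ℓ_2 ⋯ ℓ_d` on `ℓ_1 = 0` as a sum of `(d-1)`-st powers, one for every class:
induction on the dimension.
-/

set_option autoImplicit false

namespace Pool.Agent.Results.MP_02c618_ag.RankBounds

open Finset Module

/-! ## Definitions -/

/-- the linear form with coefficient vector `a` -/
noncomputable def lin {n : ℕ} (a : Fin (n + 1) → ℂ) : MvPolynomial (Fin (n + 1)) ℂ :=
  ∑ i, MvPolynomial.C (a i) * MvPolynomial.X i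

/-- the form `F` is a sum of `r` powers of degree `d` of linear forms -/
def HasWaring {n : ℕ} (F : MvPolynomial (Fin (n + 1)) ℂ) (d r : ℕ) : Prop :=
  ∃ m : Fin r → (Fin (n + 1) → ℂ), F = ∑ j, lin (m j) ^ d

/-- the Waring rank of the form `F` of degree `d` -/
noncomputable def waringRank {n : ℕ} (F : MvPolynomial (Fin (n + 1)) ℂ) (d : ℕ) : ℕ :=
  sInf {r | HasWaring F d r}

/-- the linear forms with coefficient vectors `a 0, ..., a (d - 1)` define a generic arrangement of
`d ≥ n + 1` hyperplanes in `ℙⁿ`: any `n + 1` of them are linearly independent -/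
def IsGenericArrangement {n d : ℕ} (a : Fin d → (Fin (n + 1) → ℂ)) : Prop :=
  n + 1 ≤ d ∧ ∀ s : Finset (Fin d), s.card = n + 1 → LinearIndependent ℂ (fun i : s => a i)

/-- the statement `P(n)`: there are generic arrangements in `ℙⁿ` of arbitrarily large size with
Waring rank `binom (2 n) n` -/
def P (n : ℕ) : Prop :=
  ∀ D : ℕ, ∃ d ≥ D, ∃ a : Fin d → (Fin (n + 1) → ℂ), IsGenericArrangement a ∧
    waringRank (∏ i, lin (a i)) d = (2 * n).choose n

/-! ## The proof -/

theorem eval_lin {n : ℕ} (a x : Fin (n + 1) → ℂ) :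
    MvPolynomial.eval x (lin a) = dotProductEquiv ℂ (Fin (n + 1)) a x := by
  simp [lin, dotProduct]

theorem gen {n d : ℕ} (a : Fin d → (Fin (n + 1) → ℂ)) (ha : IsGenericArrangement a) :
    Pool.Agent.KS6_56.WR.Gen n (fun i => dotProductEquiv ℂ (Fin (n + 1)) (a i)) := by
  refine ⟨ha.1, fun s hs => ?_⟩
  exact (ha.2 s hs).map' (dotProductEquiv ℂ (Fin (n + 1))).toLinearMap (LinearEquiv.ker _)

theorem hasW {n d r : ℕ} (a : Fin d → (Fin (n + 1) → ℂ)) (h : HasWaring (∏ i, lin (a i)) d r) :
    Pool.Agent.KS6_56.WR.HasW (fun x : Fin (n + 1) → ℂ =>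
      ∏ i, dotProductEquiv ℂ (Fin (n + 1)) (a i) x) d r := by
  obtain ⟨m, hm⟩ := h
  refine ⟨fun k => dotProductEquiv ℂ (Fin (n + 1)) (m k), fun x => ?_⟩
  have h1 := congrArg (MvPolynomial.eval x) hm
  rw [map_prod, map_sum] at h1
  simp only [map_pow, eval_lin] at h1
  exact h1

/-- **Main theorem.** Let `ℓ_1 ⋯ ℓ_d` be a generic arrangement of `d` hyperplanes in `ℙⁿ` which is a
sum of `r` powers of linear forms. Then `d + 2 ≤ 2 r` if `n = 2`, `d + 1 ≤ r` if `n = 3`,
`2 d ≤ r` if `n = 4`, and `2 d + 2 ≤ r` if `n ≥ 5`. In particular `P(n)` fails for every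
`n ≥ 2`. -/
theorem result :
    (∀ (n d r : ℕ) (a : Fin d → (Fin (n + 1) → ℂ)), IsGenericArrangement a →
      HasWaring (∏ i, lin (a i)) d r →
        (n = 2 → d + 2 ≤ 2 * r) ∧ (n = 3 → d + 1 ≤ r) ∧ (n = 4 → 2 * d ≤ r) ∧
        (5 ≤ n → 2 * d + 2 ≤ r)) ∧
    ∀ n : ℕ, 2 ≤ n → ¬ P n := by
  have hmain : ∀ (n d r : ℕ) (a : Fin d → (Fin (n + 1) → ℂ)), IsGenericArrangement a →
      HasWaring (∏ i, lin (a i)) d r →
        (n = 2 → d + 2 ≤ 2 * r) ∧ (n = 3 → d + 1 ≤ r) ∧ (n = 4 → 2 * d ≤ r) ∧
        (5 ≤ n → 2 * d + 2 ≤ r) := by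
    intro n d r a ha hr
    have hd := ha.1
    refine ⟨?_, ?_, ?_, ?_⟩
    · rintro rfl
      have h1 := Pool.Agent.KS6_56.WR.main_bound 0 _ d _ (gen a ha) r (hasW a hr)
      change (d + 3) / 2 ≤ r at h1
      omega
    · rintro rfl
      exact (Pool.Agent.KS6_56.WR.bd_one d hd).trans
        (Pool.Agent.KS6_56.WR.main_bound 1 _ d _ (gen a ha) r (hasW a hr))
    · rintro rfl
      exact (Pool.Agent.KS6_56.WR.bd_two d hd).trans
        (Pool.Agent.KS6_56.WR.main_bound 2 _ d _ (gen a ha) r (hasW a hr))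
    · intro hn
      obtain ⟨k, rfl⟩ : ∃ k, n = k + 3 + 2 := ⟨n - 5, by omega⟩
      exact (Pool.Agent.KS6_56.WR.bd_three k d (by omega)).trans
        (Pool.Agent.KS6_56.WR.main_bound (k + 3) _ d _ (gen a ha) r (hasW a hr))
  refine ⟨hmain, fun n hn hP => ?_⟩
  obtain ⟨d, hd, a, ha, hr⟩ := hP (2 * (2 * n).choose n)
  have hpos : 0 < (2 * n).choose n := Nat.choose_pos (by omega)
  have hmem : waringRank (∏ i, lin (a i)) d ∈ {r | HasWaring (∏ i, lin (a i)) d r} := by
    apply Nat.sInf_mem
    apply Nat.nonempty_of_pos_sInf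
    unfold waringRank at hr
    omega
  obtain ⟨h2, h3, h4, h5⟩ := hmain n d _ a ha hmem
  rw [hr] at h2 h3 h4 h5
  rcases (by omega : n = 2 ∨ n = 3 ∨ n = 4 ∨ 5 ≤ n) with h | h | h | h
  · have := h2 h; omega
  · have := h3 h; omega
  · have := h4 h; omega
  · have := h5 h; omega

end Pool.Agent.Results.MP_02c618_ag.RankBounds
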